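import Pool.Agent.helper12.OB.SpecC

set_option autoImplicit false

namespace Pool.Agent.OB

open Pool.Agent.helper58.DC Pool.Agent.DI Pool.Agent.GR

/-- the action on the elements with the parity `e` of the length -/
def PGF_act {A : Type} [Group A] (S : SSet A) (e : ℕ) :
    MulAction A {z : S.Z // S.len z % 2 = e} where
  smul a z := ⟨S.act a z.1, by rw [S.len_act]; exact z.2⟩
  one_smul z := Subtype.ext (by
    show S.act 1 z.1 = z.1
    rw [map_one]
    rfl)
  mul_smul a b z := Subtype.ext (by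
    show S.act (a * b) z.1 = S.act a (S.act b z.1)
    rw [map_mul]
    rfl)

open Classical in
theorem PGF_par (p : ℕ) [Fact p.Prime] (A : Type) [Group A] [Finite A] (hA : IsPGroup p A)
    (S : SSet A) [Fintype S.Z] (e : ℕ) :
    (p : ℤ) ∣ (∑ z : S.Z, if S.len z % 2 = e ∧ (∀ a, S.act a z = z) then (1 : ℤ) else 0) -
      ∑ z : S.Z, if S.len z % 2 = e then (1 : ℤ) else 0 := by
  letI := PGF_act S e
  have h := hA.card_modEq_card_fixedPoints {z : S.Z // S.len z % 2 = e}
  have h1 : (Nat.card {z : S.Z // S.len z % 2 = e} : ℤ) =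
      ∑ z : S.Z, if S.len z % 2 = e then (1 : ℤ) else 0 := by
    rw [Finset.sum_boole, Nat.card_eq_fintype_card, Fintype.card_subtype]
  have h2 : (Nat.card (MulAction.fixedPoints A {z : S.Z // S.len z % 2 = e}) : ℤ) =
      ∑ z : S.Z, if S.len z % 2 = e ∧ (∀ a, S.act a z = z) then (1 : ℤ) else 0 := by
    rw [Finset.sum_boole]
    have e1 : (MulAction.fixedPoints A {z : S.Z // S.len z % 2 = e}) ≃
        {z : S.Z // S.len z % 2 = e ∧ (∀ a, S.act a z = z)} :=
      { toFun := fun z => ⟨z.1.1, z.1.2, fun a => congrArg Subtype.val (z.2 a)⟩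
        invFun := fun z => ⟨⟨z.1, z.2.1⟩, fun a => Subtype.ext (z.2.2 a)⟩
        left_inv := fun z => rfl
        right_inv := fun z => rfl }
    rw [Nat.card_congr e1, Nat.card_eq_fintype_card, Fintype.card_subtype]
  rw [← h1, ← h2]
  exact (Int.natCast_modEq_iff.2 h).dvd

open Classical in
theorem PGF_sum {A : Type} [Group A] (S : SSet A) [Fintype S.Z] (U : Subgroup A) :
    ∑ᶠ d : ℤ, S.fix d U = ∑ z : S.Z, if (∀ a ∈ U, S.act a z = z) then (-1 : ℤ) ^ S.len z else 0 := by
  unfold SSet.fix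
  simp only [finsum_eq_sum_of_fintype]
  rw [finsum_sum_comm]
  · refine Finset.sum_congr rfl fun z _ => ?_
    rw [finsum_eq_single _ (S.dfc z)]
    · simp
    · intro d hd
      rw [if_neg]
      rintro ⟨h, -⟩
      exact hd h.symm
  · intro z _
    refine (Set.finite_singleton (S.dfc z)).subset fun d hd => ?_
    rw [Function.mem_support] at hd
    by_contra hne
    apply hd
    rw [if_neg]
    rintro ⟨h, -⟩
    exact hne h.symm

theorem PGF : PGF_stmt := by
  intro p _ A _ _ hA S
  classical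
  haveI := S.fin
  letI := Fintype.ofFinite S.Z
  rw [PGF_sum, PGF_sum]
  have h0 := PGF_par p A hA S 0
  have h1 := PGF_par p A hA S 1
  have h := dvd_sub h0 h1
  have e : ∀ z : S.Z, (-1 : ℤ) ^ S.len z =
      (if S.len z % 2 = 0 then (1 : ℤ) else 0) - (if S.len z % 2 = 1 then (1 : ℤ) else 0) := by
    intro z
    rcases Nat.even_or_odd (S.len z) with h | h
    · rw [h.neg_one_pow, Nat.even_iff.1 h]
      simp
    · rw [h.neg_one_pow, Nat.odd_iff.1 h]
      simp
  have e1 : (∑ z : S.Z, if (∀ a ∈ (⊤ : Subgroup A), S.act a z = z) then (-1 : ℤ) ^ S.len z else 0) =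
      (∑ z : S.Z, if S.len z % 2 = 0 ∧ (∀ a, S.act a z = z) then (1 : ℤ) else 0) -
      ∑ z : S.Z, if S.len z % 2 = 1 ∧ (∀ a, S.act a z = z) then (1 : ℤ) else 0 := by
    rw [← Finset.sum_sub_distrib]
    refine Finset.sum_congr rfl fun z _ => ?_
    by_cases hz : ∀ a, S.act a z = z
    · rw [if_pos (fun a _ => hz a), e z]
      simp [hz]
    · rw [if_neg (fun h' => hz fun a => h' a (Subgroup.mem_top a)), if_neg (fun h' => hz h'.2),
        if_neg (fun h' => hz h'.2)]
      simp
  have e2 : (∑ z : S.Z, if (∀ a ∈ (⊥ : Subgroup A), S.act a z = z) then (-1 : ℤ) ^ S.len z else 0) =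
      (∑ z : S.Z, if S.len z % 2 = 0 then (1 : ℤ) else 0) -
      ∑ z : S.Z, if S.len z % 2 = 1 then (1 : ℤ) else 0 := by
    rw [← Finset.sum_sub_distrib]
    refine Finset.sum_congr rfl fun z _ => ?_
    rw [if_pos, e z]
    intro a ha
    rw [Subgroup.mem_bot] at ha
    rw [ha, map_one]
    rfl
  rw [e1, e2]
  have e3 : ∀ a b c d : ℤ, (a - b) - (c - d) = (a - c) - (b - d) := by intro a b c d; ring
  rw [e3]
  exact h

end Pool.Agent.OB
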