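import Pool.Agent.helper12.OB.SpecB

set_option autoImplicit false

namespace Pool.Agent.OB

open Pool.Agent.helper58.DC Pool.Agent.DI Pool.Agent.GR

theorem TW3_mem {G : Type} [Group G] {n : ℕ} (K : Subgroup G) (z : Fin n → G)
    (h : ∀ j, z j ∈ K) : qq z ∈ K := by
  unfold qq
  refine Subgroup.list_prod_mem K fun x hx => ?_
  rw [List.mem_ofFn] at hx
  obtain ⟨j, rfl⟩ := hx
  exact h j

theorem TW3_conj {G : Type} [Group G] {n : ℕ} (y : G) (z : Fin n → G) :
    qq (fun j => y * z j * y⁻¹) = y * qq z * y⁻¹ := by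
  unfold qq
  have h1 : (fun j => y * z j * y⁻¹) = (MulAut.conj y) ∘ z := by
    funext j
    simp [MulAut.conj_apply]
  rw [h1, ← List.map_ofFn, ← map_list_prod, MulAut.conj_apply]

theorem TW3_conj' {G : Type} [Group G] {n : ℕ} (y : G) (z : Fin n → G) :
    qq (fun j => y⁻¹ * z j * y) = y⁻¹ * qq z * y := by
  have h := TW3_conj y⁻¹ z
  rwa [inv_inv] at h

theorem TW3_tp {G : Type} [Group G] (p : ℕ) (y x : G) : tp p (y * x * y⁻¹) = tp p x := by
  unfold tp
  have h : (y * x * y⁻¹) ^ p = 1 ↔ x ^ p = 1 := by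
    rw [conj_pow]
    exact conj_eq_one_iff
  by_cases hx : x ^ p = 1
  · rw [if_pos hx, if_pos (h.2 hx)]
  · rw [if_neg hx, if_neg (fun h' => hx (h.1 h'))]

theorem TW3_three {α : Type} (z : Fin 3 → α) : ![z 0, z 1, z 2] = z := by
  funext i
  fin_cases i <;> rfl

/-- the bijection -/
noncomputable def TW3_e {G : Type} [Group G] {n : ℕ}
    (ε : (Fin 3 → Fin n → G) ≃ (Fin (3 * n) → G)) :
    ((G × G) × ((Fin n → G) × (Fin n → G) × (Fin n → G)) × G) ≃
      ((G × G) × (Fin (3 * n) → G) × G) where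
  toFun x := ((qq x.2.1.2.1 * x.1.2 * qq x.2.1.1, x.1.1 * qq x.2.1.2.2 * qq x.2.1.1),
    ε ![fun j => (x.1.1 * qq x.2.1.2.2 * qq x.2.1.1) * x.2.1.2.1 j *
          (x.1.1 * qq x.2.1.2.2 * qq x.2.1.1)⁻¹,
        fun j => (x.1.1 * qq x.2.1.2.2 * qq x.2.1.1) * x.2.1.2.2 j *
          (x.1.1 * qq x.2.1.2.2 * qq x.2.1.1)⁻¹,
        fun j => (x.1.1 * qq x.2.1.2.2 * qq x.2.1.1) * x.2.1.1 j *
          (x.1.1 * qq x.2.1.2.2 * qq x.2.1.1)⁻¹], x.2.2)
  invFun a := ((a.1.2 * (qq fun j => a.1.2⁻¹ * ε.symm a.2.1 2 j * a.1.2)⁻¹ *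
      (qq fun j => a.1.2⁻¹ * ε.symm a.2.1 1 j * a.1.2)⁻¹,
      (qq fun j => a.1.2⁻¹ * ε.symm a.2.1 0 j * a.1.2)⁻¹ * a.1.1 *
      (qq fun j => a.1.2⁻¹ * ε.symm a.2.1 2 j * a.1.2)⁻¹),
    (fun j => a.1.2⁻¹ * ε.symm a.2.1 2 j * a.1.2, fun j => a.1.2⁻¹ * ε.symm a.2.1 0 j * a.1.2,
      fun j => a.1.2⁻¹ * ε.symm a.2.1 1 j * a.1.2), a.2.2)
  left_inv := by
    rintro ⟨⟨v, w⟩, ⟨z0, z1, z2⟩, S⟩
    have h : ∀ y : G, ∀ z : Fin n → G, (fun j => y⁻¹ * (y * z j * y⁻¹) * y) = z := by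
      intro y z
      funext j
      group
    simp only [Equiv.symm_apply_apply, Matrix.cons_val_zero, Matrix.cons_val_one,
      Matrix.cons_val_two, Matrix.tail_cons, Matrix.head_cons, h]
    refine Prod.ext (Prod.ext ?_ ?_) rfl
    · simp only []
      group
    · simp only []
      group
  right_inv := by
    rintro ⟨⟨t, y⟩, Z, S⟩
    have h : ∀ y : G, ∀ z : Fin n → G, (fun j => y * (y⁻¹ * z j * y) * y⁻¹) = z := by
      intro y z
      funext j
      group
    have h1 : y * (qq fun j => y⁻¹ * ε.symm Z 2 j * y)⁻¹ *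
        (qq fun j => y⁻¹ * ε.symm Z 1 j * y)⁻¹ * (qq fun j => y⁻¹ * ε.symm Z 1 j * y) *
        (qq fun j => y⁻¹ * ε.symm Z 2 j * y) = y := by group
    simp only [h1, h]
    refine Prod.ext (Prod.ext ?_ rfl) (Prod.ext ?_ rfl)
    · simp only []
      group
    · simp only []
      rw [TW3_three, Equiv.apply_symm_apply]

theorem TW3 (hBLK : BLK_stmt) : TW3_stmt := by
  intro G _ _ n g₁ g₂
  obtain ⟨ε, h1, h2, h3, -⟩ := hBLK G 3 3 n
  unfold To
  rw [← finsum_comp_equiv (TW3_e ε)]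
  refine finsum_congr fun x => ?_
  obtain ⟨⟨v, w⟩, ⟨z0, z1, z2⟩, S⟩ := x
  simp only [TW3_e, Equiv.coe_fn_mk]
  generalize hy : v * qq z2 * qq z0 = y
  have e1 : qq (ε ![fun j => y * z1 j * y⁻¹, fun j => y * z2 j * y⁻¹,
      fun j => y * z0 j * y⁻¹]) = y * (qq z1 * qq z2 * qq z0) * y⁻¹ := by
    rw [h1]
    unfold qq
    simp only [List.ofFn_succ, List.ofFn_zero, List.prod_cons, List.prod_nil]
    have h4 := TW3_conj y z0
    have h5 := TW3_conj y z1
    have h6 := TW3_conj y z2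
    unfold qq at h4 h5 h6
    simp only [Matrix.cons_val_zero, Matrix.cons_val_succ, h4, h5, h6]
    group
  have e2 : (∏ j, tp 3 (ε ![fun j => y * z1 j * y⁻¹, fun j => y * z2 j * y⁻¹,
      fun j => y * z0 j * y⁻¹] j)) =
      (∏ j, tp 3 (z0 j)) * (∏ j, tp 3 (z1 j)) * ∏ j, tp 3 (z2 j) := by
    rw [h3, Fin.prod_univ_three]
    simp only [Matrix.cons_val_zero, Matrix.cons_val_one, Matrix.cons_val_two, Matrix.tail_cons,
      Matrix.head_cons, TW3_tp]
    ring
  have e3 : Subgroup.closure ({v, w, S} ∪ (Set.range z0 ∪ Set.range z1 ∪ Set.range z2)) =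
      Subgroup.closure ({qq z1 * w * qq z0, y, S} ∪ Set.range (ε ![fun j => y * z1 j * y⁻¹,
        fun j => y * z2 j * y⁻¹, fun j => y * z0 j * y⁻¹])) := by
    rw [h2]
    apply le_antisymm
    · set K := Subgroup.closure ({qq z1 * w * qq z0, y, S} ∪
        ⋃ i, Set.range ((![fun j => y * z1 j * y⁻¹, fun j => y * z2 j * y⁻¹,
        fun j => y * z0 j * y⁻¹] : Fin 3 → Fin n → G) i)) with hK
      have k1 : qq z1 * w * qq z0 ∈ K := Subgroup.subset_closure (by simp)
      have k2 : y ∈ K := Subgroup.subset_closure (by simp)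
      have k3 : S ∈ K := Subgroup.subset_closure (by simp)
      have hc : ∀ x : G, y * x * y⁻¹ ∈ K → x ∈ K := by
        intro x hx
        have := K.mul_mem (K.mul_mem (K.inv_mem k2) hx) k2
        have e : y⁻¹ * (y * x * y⁻¹) * y = x := by group
        rwa [e] at this
      have kz1 : ∀ j, z1 j ∈ K := fun j => hc _ (Subgroup.subset_closure
        (Or.inr (Set.mem_iUnion.2 ⟨0, ⟨j, rfl⟩⟩)))
      have kz2 : ∀ j, z2 j ∈ K := fun j => hc _ (Subgroup.subset_closure
        (Or.inr (Set.mem_iUnion.2 ⟨1, ⟨j, rfl⟩⟩)))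
      have kz0 : ∀ j, z0 j ∈ K := fun j => hc _ (Subgroup.subset_closure
        (Or.inr (Set.mem_iUnion.2 ⟨2, ⟨j, rfl⟩⟩)))
      have q0 := TW3_mem K z0 kz0
      have q1 := TW3_mem K z1 kz1
      have q2 := TW3_mem K z2 kz2
      rw [Subgroup.closure_le]
      rintro x (hx | hx)
      · simp only [Set.mem_insert_iff, Set.mem_singleton_iff] at hx
        rcases hx with rfl | rfl | rfl
        · have := K.mul_mem (K.mul_mem k2 (K.inv_mem q0)) (K.inv_mem q2)
          rw [← hy] at this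
          have e : x * qq z2 * qq z0 * (qq z0)⁻¹ * (qq z2)⁻¹ = x := by group
          rwa [e] at this
        · have := K.mul_mem (K.mul_mem (K.inv_mem q1) k1) (K.inv_mem q0)
          have e : (qq z1)⁻¹ * (qq z1 * x * qq z0) * (qq z0)⁻¹ = x := by group
          rwa [e] at this
        · exact k3
      · rcases hx with (hx | hx) | hx
        · obtain ⟨j, rfl⟩ := hx
          exact kz0 j
        · obtain ⟨j, rfl⟩ := hx
          exact kz1 j
        · obtain ⟨j, rfl⟩ := hx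
          exact kz2 j
    · set K := Subgroup.closure ({v, w, S} ∪ (Set.range z0 ∪ Set.range z1 ∪ Set.range z2)) with hK
      have k1 : v ∈ K := Subgroup.subset_closure (by simp)
      have k2 : w ∈ K := Subgroup.subset_closure (by simp)
      have k3 : S ∈ K := Subgroup.subset_closure (by simp)
      have kz0 : ∀ j, z0 j ∈ K := fun j => Subgroup.subset_closure
        (Or.inr (Or.inl (Or.inl ⟨j, rfl⟩)))
      have kz1 : ∀ j, z1 j ∈ K := fun j => Subgroup.subset_closure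
        (Or.inr (Or.inl (Or.inr ⟨j, rfl⟩)))
      have kz2 : ∀ j, z2 j ∈ K := fun j => Subgroup.subset_closure
        (Or.inr (Or.inr ⟨j, rfl⟩))
      have q0 := TW3_mem K z0 kz0
      have q1 := TW3_mem K z1 kz1
      have q2 := TW3_mem K z2 kz2
      have ky : y ∈ K := by
        rw [← hy]
        exact K.mul_mem (K.mul_mem k1 q2) q0
      rw [Subgroup.closure_le]
      rintro x (hx | hx)
      · simp only [Set.mem_insert_iff, Set.mem_singleton_iff] at hx
        rcases hx with rfl | rfl | rfl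
        · exact K.mul_mem (K.mul_mem q1 k2) q0
        · exact ky
        · exact k3
      · rw [Set.mem_iUnion] at hx
        obtain ⟨i, j, rfl⟩ := hx
        fin_cases i
        · exact K.mul_mem (K.mul_mem ky (kz1 j)) (K.inv_mem ky)
        · exact K.mul_mem (K.mul_mem ky (kz2 j)) (K.inv_mem ky)
        · exact K.mul_mem (K.mul_mem ky (kz0 j)) (K.inv_mem ky)
  have e4 : qq z1 * w * qq z0 * y * (qq z1 * w * qq z0)⁻¹ * y⁻¹ *
      (y * (qq z1 * qq z2 * qq z0) * y⁻¹) * S = wd3 v w (qq z0) (qq z1) (qq z2) S := by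
    unfold wd3
    rw [← hy]
    group
  rw [e1, e2, e4, e3]

end Pool.Agent.OB
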