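import Pool.Agent.helper22.OB.SpecZ

set_option autoImplicit false

namespace Pool.Agent.OB

open Pool.Agent.helper58.DC Pool.Agent.DI Pool.Agent.GR

theorem ZT3_cc {G : Type} [Group G] [Finite G] (θ z : G → ℂ) (b : ℂ) :
    cc θ (fun x => z x * b) = b * cc θ z := by
  have := Fintype.ofFinite G
  unfold cc
  rw [finsum_eq_sum_of_fintype, finsum_eq_sum_of_fintype, mul_div_assoc', Finset.mul_sum]
  have h : ∀ x : G, z x * b * θ x = b * (z x * θ x) := fun x => by ring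
  simp only [h]

theorem ZT3_ind {G : Type} [Group G] (M : Ideal (integralClosure ℤ ℂ)) (ψ φ χ : G → ℂ)
    (h : Induces M ψ φ) : Induces M φ χ ↔ Induces M ψ χ := by
  constructor
  · intro h1 g
    obtain ⟨a, ha, ea⟩ := h g
    obtain ⟨c, hc, ec⟩ := h1 g
    refine ⟨a + c, M.add_mem ha hc, ?_⟩
    push_cast
    rw [← ea, ← ec]
    ring
  · intro h1 g
    obtain ⟨a, ha, ea⟩ := h g
    obtain ⟨c, hc, ec⟩ := h1 g
    refine ⟨c - a, M.sub_mem hc ha, ?_⟩
    push_cast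
    rw [← ea, ← ec]
    ring

theorem ZT3 (hZT0 : ZT0_stmt) (hC3 : C3_stmt) (hC9 : C9_stmt) : ZT3_stmt := by
  intro p M hS G _ _ χ hχ C hC ψ hψ
  have : Fact p.Prime := ⟨hS.pr⟩
  obtain ⟨hcl, hint, hval⟩ := hZT0 p M hS G χ
  have := Fintype.ofFinite G
  obtain ⟨b, hb, hbi⟩ := IntAt.common hS (Finset.univ : Finset G) (fun i _ => hint i)
  have hz : IsZO (fun x => zeta M χ x * (b : ℂ)) :=
    ⟨fun x y => by simp only [hcl], fun x => hbi x (Finset.mem_univ x)⟩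
  obtain ⟨χ', hχ', hInd⟩ := hC9 G p M hS.max hS.mem C hC ψ hψ
  have hM := (hC3 G).2.2.1 p M hS.max hS.mem ψ χ' hInd _ hz
  have h1 := InM.of_mcong hS hM
  rw [ZT3_cc, ZT3_cc, ← mul_sub] at h1
  have h2 : InM M (cc ψ (zeta M χ) - cc χ' (zeta M χ)) := by
    obtain ⟨x, y, hx, hy, e⟩ := h1
    refine ⟨x, b * y, hx, hS.mul_not_mem hb hy, ?_⟩
    push_cast
    rw [← e]
    ring
  rw [hval χ' hχ'] at h2
  have h3 := ZT3_ind M ψ χ' χ hInd
  by_cases h4 : Induces M ψ χ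
  · rw [if_pos h4]
    rw [if_pos (h3.2 h4)] at h2
    exact h2
  · rw [if_neg h4]
    rw [if_neg (fun h5 => h4 (h3.1 h5))] at h2
    exact h2

end Pool.Agent.OB
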